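import Pool.Agent.W_be22fd_h16.BReal
import Pool.Agent.W_be22fd_h78.Calc

/-!
The recursion over the levels of the word.
-/

namespace Pool.Agent.W_be22fd_h16

open Pool.Agent.W_MP_be22fd_co Pool.Agent.W_be22fd_h27 Pool.Agent.W_be22fd_h78 Polynomial

/-- the wires of the system of a block -/
def sysW (B : Block) : Set (Wire B.W B.ns) :=
  {p | p = .L ∨ p = .C ∨ ∃ w, B.T w ∧ p = .inn w}

namespace BReal

variable {B : Block} {d : ℕ}

/-- the polynomials of the system -/
def sys (R : BReal B d) : Set ℝ[X] := R.F '' sysW B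

/-- key times with natural number indices (`0` out of range) -/
noncomputable def tn (R : BReal B d) (k : ℕ) : ℝ := if h : k < B.ns then R.tau ⟨k, h⟩ else 0

lemma tn_eq (R : BReal B d) {k : ℕ} (h : k < B.ns) : R.tn k = R.tau ⟨k, h⟩ := dif_pos h

lemma tn_lt (R : BReal B d) {k l : ℕ} (hkl : k < l) (hl : l < B.ns) : R.tn k < R.tn l := by
  rw [R.tn_eq (hkl.trans hl), R.tn_eq hl]
  exact R.tau_lt_tau hkl

lemma tn_le (R : BReal B d) {k l : ℕ} (hkl : k ≤ l) (hl : l < B.ns) : R.tn k ≤ R.tn l := by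
  rcases hkl.lt_or_eq with h | h
  · exact (R.tn_lt h hl).le
  · rw [h]

lemma sys_finite (R : BReal B d) : R.sys.Finite := (Set.toFinite _).image _

lemma sys_deg (R : BReal B d) : ∀ P ∈ R.sys, P.natDegree ≤ d := by
  rintro _ ⟨p, -, rfl⟩
  exact R.deg p

end BReal

lemma BReal.sys_nontrivial {B : Block} {d : ℕ} (R : BReal B d) : R.sys.Nontrivial := by
  refine ⟨R.F .L, ⟨.L, Or.inl rfl, rfl⟩, R.F .C, ⟨.C, Or.inr (Or.inl rfl), rfl⟩, ?_⟩
  intro h
  have := R.F_injective h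
  simp at this

/-- `B` has forced mass `g` between its second and its last but one key time -/
def NodeOK (c0 c C C0 G0 : ℝ) (B : Block) (d : ℕ) (g : ℝ) : Prop :=
  ∀ F, ForceCalc c0 c C C0 G0 d F → ∀ R : BReal B d, F R.sys g (R.tn 1) (R.tn (B.ns - 2))

/-- logarithmic range of the key times `tau 1, ..., tau (ns - 2)` -/
def RangeOK (B : Block) (d : ℕ) (M : ℝ) : Prop :=
  ∀ R : BReal B d, ∀ i, 1 ≤ i → i + 1 ≤ B.ns - 2 →
    R.tn (B.ns - 2) - R.tn 1 ≤ Real.exp M * (R.tn (i + 1) - R.tn i)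

/-- property (P) at the first level: the children are crossing pairs -/
def PairOK (B : Block) (d : ℕ) : Prop :=
  ∀ R : BReal B d, ∀ k, 1 ≤ k → k + 2 < B.ns → ∀ x, R.tn k < x → x < R.tn (k + 1) →
    ∃ P ∈ R.sys, ∃ Q ∈ R.sys, ∃ z, P ≠ Q ∧ P.eval z = Q.eval z ∧ R.tn (k - 1) ≤ z ∧ z ≤ x ∧
      Dom 1 R.sys {P, Q} x

/-- property (P) at the higher levels -/
def ChildOK (B B' : Block) (d : ℕ) : Prop :=
  ∀ R' : BReal B' d, ∀ k, 1 ≤ k → k + 2 < B'.ns → ∀ x, R'.tn k < x → x < R'.tn (k + 1) →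
    ∃ R : BReal B d, R.sys ⊆ R'.sys ∧ R'.tn (k - 1) ≤ R.tn 1 ∧ R.tn (B.ns - 2) ≤ x ∧
      Dom 2 R'.sys R.sys x

lemma node_first {c0 c C C0 G0 M : ℝ} {d : ℕ} {B : Block} (hns : 4 ≤ B.ns) (hM : 0 ≤ M)
    (hc0 : 0 ≤ c0) (hR : RangeOK B d M) (hP : PairOK B d) :
    NodeOK c0 c C C0 G0 B d (c0 * gain c C (B.ns - 3) M) := by
  intro F hF R
  have h := hF.step R.sys (B.ns - 3) (fun i => R.tn (i + 1)) M 1 c0 R.sys_finite
    R.sys_nontrivial R.sys_deg hM hc0 (Or.inl rfl) (fun i hi => R.tn_lt (by omega) (by omega)) ?_ ?_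
  · have e : B.ns - 3 + 1 = B.ns - 2 := by omega
    simp only [zero_add, e] at h
    exact h
  · intro i hi
    have e : B.ns - 3 + 1 = B.ns - 2 := by omega
    simp only [zero_add, e]
    exact hR R (i + 1) (by omega) (by omega)
  · intro k hk hkN x hx hx'
    obtain ⟨P, hPm, Q, hQm, z, hne, hz, h1, h2, hD⟩ := hP R (k + 1) (by omega) (by omega) x hx hx'
    refine ⟨{P, Q}, ?_, z, z, hF.pair P Q z hne (R.sys_deg P hPm) (R.sys_deg Q hQm) hz, ?_,
      le_rfl, h2, hD⟩
    · rintro T (rfl | rfl)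
      · exact hPm
      · exact hQm
    · have e : k - 1 + 1 = k + 1 - 1 := by omega
      simp only [e]
      exact h1

lemma node_step {c0 c C C0 G0 M g : ℝ} {d : ℕ} {B B' : Block} (hns : 4 ≤ B'.ns)
    (hns0 : 3 ≤ B.ns) (hM : 0 ≤ M) (hg0 : 0 ≤ g) (hg : G0 ≤ g)
    (hR : RangeOK B' d M) (hP : ChildOK B B' d) (hB : NodeOK c0 c C C0 G0 B d g) :
    NodeOK c0 c C C0 G0 B' d (g * gain c C (B'.ns - 3) M) := by
  intro F hF R
  have h := hF.step R.sys (B'.ns - 3) (fun i => R.tn (i + 1)) M 2 g R.sys_finite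
    R.sys_nontrivial R.sys_deg hM hg0 (Or.inr ⟨rfl, hg⟩)
    (fun i hi => R.tn_lt (by omega) (by omega)) ?_ ?_
  · have e : B'.ns - 3 + 1 = B'.ns - 2 := by omega
    simp only [zero_add, e] at h
    exact h
  · intro i hi
    have e : B'.ns - 3 + 1 = B'.ns - 2 := by omega
    simp only [zero_add, e]
    exact hR R (i + 1) (by omega) (by omega)
  · intro k hk hkN x hx hx'
    obtain ⟨R0, hsub, h1, h2, hD⟩ := hP R (k + 1) (by omega) (by omega) x hx hx'
    refine ⟨R0.sys, hsub, R0.tn 1, R0.tn (B.ns - 2), hB F hF R0, ?_, ?_, h2, hD⟩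
    · have e : k - 1 + 1 = k + 1 - 1 := by omega
      simp only [e]
      exact h1
    · exact R0.tn_le (by omega) (by omega)

/-- The conclusion for a tower of blocks `B 1, ..., B (J + 1)` with `ns (B j) = K j + 1`. -/
theorem tower {c0 c C C0 G0 M : ℝ} {d n J : ℕ} (B : ℕ → Block) (K : ℕ → ℕ) (hM : 0 ≤ M)
    (hc0 : 0 ≤ c0)
    (hns : ∀ j ≤ J, (B (j + 1)).ns = K (j + 1) + 1) (hK : ∀ j ≤ J, 3 ≤ K (j + 1))
    (hg : ∀ j ≤ J, 1 ≤ gain c C (K (j + 1) - 2) M) (hG : G0 ≤ c0 * gain c C (K 1 - 2) M)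
    (hR : ∀ j ≤ J, RangeOK (B (j + 1)) d M) (hP1 : PairOK (B 1) d)
    (hP : ∀ j < J, ChildOK (B (j + 1)) (B (j + 2)) d) {F} (hF : ForceCalc c0 c C C0 G0 d F)
    (hn : 2 * Fintype.card (Wire (B (J + 1)).W (B (J + 1)).ns) ≤ n)
    (h : ∀ f : Fin n → ℝ → ℝ, IsArrangement f → IsSimple f → Stretchable d f) :
    c0 * ∏ j ∈ Finset.range (J + 1), gain c C (K (j + 1) - 2) M ≤ C0 * d := by
  have hpos : ∀ j ≤ J, 1 ≤ ∏ i ∈ Finset.range (j + 1), gain c C (K (i + 1) - 2) M := by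
    intro j
    induction j with
    | zero =>
      intro hj
      simpa using hg 0 hj
    | succ j ih =>
      intro hj
      rw [Finset.prod_range_succ]
      have h1 := hg (j + 1) hj
      have h2 := ih (by omega)
      nlinarith
  have hprod : ∀ j ≤ J, G0 ≤ c0 * ∏ i ∈ Finset.range (j + 1), gain c C (K (i + 1) - 2) M := by
    intro j
    induction j with
    | zero =>
      intro hj
      simpa using hG
    | succ j ih =>
      intro hj
      rw [Finset.prod_range_succ]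
      have h1 := hg (j + 1) hj
      have h2 := ih (by omega)
      have h3 := hpos j (by omega)
      have h4 : 0 ≤ c0 * ∏ i ∈ Finset.range (j + 1), gain c C (K (i + 1) - 2) M :=
        mul_nonneg hc0 (by linarith)
      calc G0 ≤ c0 * ∏ i ∈ Finset.range (j + 1), gain c C (K (i + 1) - 2) M := h2
        _ ≤ (c0 * ∏ i ∈ Finset.range (j + 1), gain c C (K (i + 1) - 2) M) *
            gain c C (K (j + 1 + 1) - 2) M := le_mul_of_one_le_right h4 h1
        _ = _ := by ring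
  have hnode : ∀ j ≤ J, NodeOK c0 c C C0 G0 (B (j + 1)) d
      (c0 * ∏ i ∈ Finset.range (j + 1), gain c C (K (i + 1) - 2) M) := by
    intro j
    induction j with
    | zero =>
      intro hj
      have h1 := node_first (c := c) (C := C) (C0 := C0) (G0 := G0)
        (by rw [hns 0 hj]; have := hK 0 hj; omega) hM hc0 (hR 0 hj) hP1
      have e : (B (0 + 1)).ns - 3 = K (0 + 1) - 2 := by rw [hns 0 hj]; omega
      rw [e] at h1
      simpa using h1
    | succ j ih =>
      intro hj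
      rw [Finset.prod_range_succ, ← mul_assoc]
      have h3 := hpos j (by omega)
      have h1 := node_step (c := c) (C := C) (by rw [hns (j + 1) hj]; have := hK (j + 1) hj; omega)
        (by rw [hns j (by omega)]; have := hK j (by omega); omega) hM
        (mul_nonneg hc0 (by linarith)) (hprod j (by omega))
        (hR (j + 1) hj) (hP j (by omega)) (ih (by omega))
      have e : (B (j + 1 + 1)).ns - 3 = K (j + 1 + 1) - 2 := by rw [hns (j + 1) hj]; omega
      rw [e] at h1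
      exact h1
  obtain ⟨R⟩ := exists_breal (B (J + 1)) hn h
  exact hF.total _ _ _ _ R.sys_finite R.sys_deg (hnode J le_rfl F hF R)

end Pool.Agent.W_be22fd_h16
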