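import Pool.Agent.W_be22fd_h16.Realise
import Pool.Agent.W_be22fd_h27.Block

/-!
Realisations of a block by real polynomials, and the real key times.
-/

namespace Pool.Agent.W_be22fd_h27.Block

open Pool.Agent.W_be22fd_h16

variable (B : Block)

/-- the class of a wire -/
abbrev r (p : Wire B.W B.ns) : ℤ := rk B.A B.slope p

/-- the pair `p`, `q` is switched in the state `t` -/
def Sw (p q : Wire B.W B.ns) (t : B.τ) : Prop :=
  (B.r p < B.r q ∧ B.h t p < B.h t q) ∨ (B.r q < B.r p ∧ B.h t q < B.h t p)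

lemma Sw_symm {p q : Wire B.W B.ns} {t : B.τ} : B.Sw p q t ↔ B.Sw q p t := by
  unfold Sw
  tauto

lemma Sw_iff {p q : Wire B.W B.ns} (h : B.r p < B.r q) {t : B.τ} :
    B.Sw p q t ↔ B.h t p < B.h t q := by
  unfold Sw
  constructor
  · rintro (h1 | h1)
    · exact h1.2
    · exact absurd h1.1 h.asymm
  · intro h1
    exact Or.inl ⟨h, h1⟩

lemma Sw_mono {p q : Wire B.W B.ns} {t t' : B.τ} (ht : t ≤ t') (h : B.Sw p q t) :
    B.Sw p q t' := by
  rcases h with ⟨h1, h2⟩ | ⟨h1, h2⟩
  · exact Or.inl ⟨h1, B.once p q t t' h1 ht h2⟩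
  · exact Or.inr ⟨h1, B.once q p t t' h1 ht h2⟩

lemma h_lt_or_gt {p q : Wire B.W B.ns} (hpq : p ≠ q) (t : B.τ) :
    B.h t p < B.h t q ∨ B.h t q < B.h t p :=
  lt_or_gt_of_ne (fun h => hpq (B.inj t h))

/-- a pair that is not switched has the initial order -/
lemma lt_iff_of_not_Sw {p q : Wire B.W B.ns} {t : B.τ} (hpq : p ≠ q) (h : ¬ B.Sw p q t) :
    B.h t p < B.h t q ↔ B.h B.ini p < B.h B.ini q := by
  rcases lt_trichotomy (B.r p) (B.r q) with h1 | h1 | h1
  · have h2 := B.h_ini p q h1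
    rw [B.Sw_iff h1] at h
    exact ⟨fun h3 => absurd h3 h, fun h3 => absurd h3 h2.asymm⟩
  · constructor
    · intro h3
      exact B.same p q t B.ini h1 h3
    · intro h3
      exact B.same p q B.ini t h1 h3
  · have h2 := B.h_ini q p h1
    rw [B.Sw_symm, B.Sw_iff h1] at h
    exact ⟨fun _ => h2, fun _ => (B.h_lt_or_gt hpq t).resolve_right h⟩

/-- a pair that is switched has the order opposite to the initial one -/
lemma lt_iff_of_Sw {p q : Wire B.W B.ns} {t : B.τ} (h : B.Sw p q t) :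
    B.h t p < B.h t q ↔ B.h B.ini q < B.h B.ini p := by
  rcases h with ⟨h1, h2⟩ | ⟨h1, h2⟩
  · exact ⟨fun _ => B.h_ini p q h1, fun _ => h2⟩
  · exact ⟨fun h3 => absurd h3 h2.asymm, fun h3 => absurd h3 (B.h_ini q p h1).asymm⟩

/-- the states in increasing order -/
noncomputable def st (k : ℕ) : B.τ :=
  if hk : k < Fintype.card B.τ then (monoEquivOfFin B.τ rfl) ⟨k, hk⟩ else B.fin

lemma st_mono {k l : ℕ} (hkl : k ≤ l) (hl : l < Fintype.card B.τ) : B.st k ≤ B.st l := by
  unfold st
  rw [dif_pos (lt_of_le_of_lt hkl hl), dif_pos hl]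
  exact (monoEquivOfFin B.τ rfl).monotone (by simpa using hkl)

lemma card_pos : 0 < Fintype.card B.τ := Fintype.card_pos_iff.2 ⟨B.ini⟩

lemma st_zero : B.st 0 = B.ini := by
  apply le_antisymm _ (B.ini_le _)
  unfold st
  rw [dif_pos B.card_pos]
  have h := (monoEquivOfFin B.τ rfl).monotone
    (show (⟨0, B.card_pos⟩ : Fin (Fintype.card B.τ)) ≤ (monoEquivOfFin B.τ rfl).symm B.ini from
      Fin.mk_le_of_le_val (Nat.zero_le _))
  simpa using h

lemma exists_st (t : B.τ) : ∃ k, k ≤ Fintype.card B.τ - 1 ∧ B.st k = t := by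
  refine ⟨(monoEquivOfFin B.τ rfl).symm t, ?_, ?_⟩
  · have := ((monoEquivOfFin B.τ rfl).symm t).2
    omega
  · unfold st
    rw [dif_pos ((monoEquivOfFin B.τ rfl).symm t).2]
    simp

/-- the sequence of orders of a block -/
noncomputable def toOrdSeq : OrdSeq (Wire B.W B.ns) B.α (Fintype.card B.τ - 1) where
  H := fun p k => B.h (B.st k) p
  inj := fun i j k _ hij h => hij (B.inj _ h)
  once := by
    intro i j k l hkl hl h0 hk
    rw [B.st_zero] at h0
    have hcp := B.card_pos
    have hst := B.st_mono hkl (by omega)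
    rcases lt_trichotomy (B.r i) (B.r j) with h1 | h1 | h1
    · exact B.once i j _ _ h1 hst hk
    · exact absurd hk (B.same j i B.ini (B.st k) h1.symm h0).asymm
    · exact absurd h0 (B.h_ini j i h1).asymm

lemma toOrdSeq_H (p : Wire B.W B.ns) (k : ℕ) : B.toOrdSeq.H p k = B.h (B.st k) p := rfl

lemma toOrdSeq_Sw {p q : Wire B.W B.ns} {k : ℕ} :
    B.toOrdSeq.Sw p q k ↔ B.Sw p q (B.st k) := by
  have key : ∀ p q : Wire B.W B.ns, (B.h B.ini q < B.h B.ini p ∧ B.h (B.st k) p < B.h (B.st k) q) ↔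
      (B.r p < B.r q ∧ B.h (B.st k) p < B.h (B.st k) q) := by
    intro p q
    constructor
    · rintro ⟨h0, hk⟩
      refine ⟨?_, hk⟩
      rcases lt_trichotomy (B.r p) (B.r q) with h1 | h1 | h1
      · exact h1
      · exact absurd hk (B.same q p B.ini (B.st k) h1.symm h0).asymm
      · exact absurd h0 (B.h_ini q p h1).asymm
    · rintro ⟨h0, hk⟩
      exact ⟨B.h_ini p q h0, hk⟩
  unfold OrdSeq.Sw Sw
  rw [toOrdSeq_H, toOrdSeq_H, toOrdSeq_H, toOrdSeq_H, st_zero, key p q, key q p]

end Pool.Agent.W_be22fd_h27.Block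

namespace Pool.Agent.W_be22fd_h16

open Pool.Agent.W_MP_be22fd_co Pool.Agent.W_be22fd_h27 Polynomial

/-- the wires of a block as a sum type -/
def wireEquiv (W : Type) (ns : ℕ) : Wire W ns ≃ (W ⊕ Bool) ⊕ (Fin ns ⊕ Fin ns) where
  toFun
    | .inn w => Sum.inl (Sum.inl w)
    | .L => Sum.inl (Sum.inr false)
    | .C => Sum.inl (Sum.inr true)
    | .S m => Sum.inr (Sum.inl m)
    | .R m => Sum.inr (Sum.inr m)
  invFun
    | Sum.inl (Sum.inl w) => .inn w
    | Sum.inl (Sum.inr false) => .L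
    | Sum.inl (Sum.inr true) => .C
    | Sum.inr (Sum.inl m) => .S m
    | Sum.inr (Sum.inr m) => .R m
  left_inv := by
    intro p
    cases p <;> rfl
  right_inv := by
    rintro ((w | (_ | _)) | (m | m)) <;> rfl

instance instFintypeWire (W : Type) (ns : ℕ) [Fintype W] : Fintype (Wire W ns) :=
  Fintype.ofEquiv _ (wireEquiv W ns).symm

lemma card_wire (W : Type) (ns : ℕ) [Fintype W] :
    Fintype.card (Wire W ns) = Fintype.card W + 2 + 2 * ns := by
  rw [Fintype.card_congr (wireEquiv W ns)]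
  simp only [Fintype.card_sum, Fintype.card_bool, Fintype.card_fin]
  ring

/-- A realisation of the block `B` by real polynomials of degree at most `d`. -/
structure BReal (B : Block) (d : ℕ) where
  F : Wire B.W B.ns → ℝ[X]
  b : Wire B.W B.ns → Wire B.W B.ns → ℝ
  deg : ∀ p, (F p).natDegree ≤ d
  symm : ∀ p q, b p q = b q p
  left : ∀ p q, B.h B.ini q < B.h B.ini p → ∀ x, x < b p q → (F q).eval x < (F p).eval x
  eq : ∀ p q, (F p).eval (b p q) = (F q).eval (b p q)
  right : ∀ p q, B.h B.ini q < B.h B.ini p → ∀ x, b p q < x → (F p).eval x < (F q).eval x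
  order : ∀ p q r t, p ≠ q → p ≠ r → B.Sw p q t → ¬ B.Sw p r t → b p q < b p r

/-- every block has a realisation if all simple arrangements are `d`-stretchable -/
theorem exists_breal (B : Block) {n d : ℕ} (hn : 2 * Fintype.card (Wire B.W B.ns) ≤ n)
    (h : ∀ f : Fin n → ℝ → ℝ, IsArrangement f → IsSimple f → Stretchable d f) :
    Nonempty (BReal B d) := by
  obtain ⟨R⟩ := realise B.toOrdSeq hn h
  have h0 : ∀ p q, B.h B.ini q < B.h B.ini p → B.toOrdSeq.H q 0 < B.toOrdSeq.H p 0 := by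
    intro p q hpq
    rw [B.toOrdSeq_H, B.toOrdSeq_H, B.st_zero]
    exact hpq
  refine ⟨⟨R.F, R.b, R.deg, R.symm, fun p q hpq => R.left p q (h0 p q hpq), R.eq,
    fun p q hpq => R.right p q (h0 p q hpq), ?_⟩⟩
  intro p q r t hpq hpr h1 h2
  obtain ⟨k, hk, rfl⟩ := B.exists_st t
  exact R.order p q r k hpq hpr hk (B.toOrdSeq_Sw.2 h1) (fun h3 => h2 (B.toOrdSeq_Sw.1 h3))

namespace BReal

variable {B : Block} {d : ℕ} (R : BReal B d)

include R

/-- different wires have different polynomials -/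
lemma F_injective : Function.Injective R.F := by
  intro p q hpq
  by_contra hne
  rcases B.h_lt_or_gt hne B.ini with h0 | h0
  · have := R.left q p h0 (R.b q p - 1) (by linarith)
    rw [hpq] at this
    exact lt_irrefl _ this
  · have := R.left p q h0 (R.b p q - 1) (by linarith)
    rw [hpq] at this
    exact lt_irrefl _ this

lemma lt_iff_left {p q : Wire B.W B.ns} (hpq : p ≠ q) {x : ℝ} (hx : x < R.b p q) :
    (R.F p).eval x < (R.F q).eval x ↔ B.h B.ini p < B.h B.ini q := by
  rcases B.h_lt_or_gt hpq B.ini with h0 | h0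
  · exact ⟨fun _ => h0, fun _ => R.left q p h0 x (by rw [R.symm]; exact hx)⟩
  · have h3 := R.left p q h0 x hx
    exact ⟨fun h4 => absurd h4 h3.asymm, fun h4 => absurd h4 h0.asymm⟩

lemma lt_iff_right {p q : Wire B.W B.ns} (hpq : p ≠ q) {x : ℝ} (hx : R.b p q < x) :
    (R.F p).eval x < (R.F q).eval x ↔ B.h B.ini q < B.h B.ini p := by
  rcases B.h_lt_or_gt hpq B.ini with h0 | h0
  · have h3 := R.right q p h0 x (by rw [R.symm]; exact hx)
    exact ⟨fun h4 => absurd h4 h3.asymm, fun h4 => absurd h4 h0.asymm⟩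
  · exact ⟨fun _ => h0, fun _ => R.right p q h0 x hx⟩

/-- switched pair, after the crossing: order of the state -/
lemma lt_iff_of_Sw {p q : Wire B.W B.ns} {t : B.τ} (hpq : p ≠ q) (h : B.Sw p q t) {x : ℝ}
    (hx : R.b p q < x) : (R.F p).eval x < (R.F q).eval x ↔ B.h t p < B.h t q := by
  rw [B.lt_iff_of_Sw h, R.lt_iff_right hpq hx]

/-- unswitched pair, before the crossing: order of the state -/
lemma lt_iff_of_not_Sw {p q : Wire B.W B.ns} {t : B.τ} (hpq : p ≠ q) (h : ¬ B.Sw p q t) {x : ℝ}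
    (hx : x < R.b p q) : (R.F p).eval x < (R.F q).eval x ↔ B.h t p < B.h t q := by
  rw [B.lt_iff_of_not_Sw hpq h, R.lt_iff_left hpq hx]

/-- before the crossing or at it or after it: decided by the order of the values -/
lemma lt_b_iff {p q : Wire B.W B.ns} (h0 : B.h B.ini q < B.h B.ini p) {x : ℝ} :
    x < R.b p q ↔ (R.F q).eval x < (R.F p).eval x := by
  constructor
  · exact R.left p q h0 x
  · intro h
    by_contra hcon
    push Not at hcon
    rcases hcon.lt_or_eq with h1 | h1
    · exact absurd h (R.right p q h0 x h1).asymm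
    · rw [← h1, R.eq] at h
      exact lt_irrefl _ h

lemma b_lt_iff {p q : Wire B.W B.ns} (h0 : B.h B.ini q < B.h B.ini p) {x : ℝ} :
    R.b p q < x ↔ (R.F p).eval x < (R.F q).eval x := by
  constructor
  · exact R.right p q h0 x
  · intro h
    by_contra hcon
    push Not at hcon
    rcases hcon.lt_or_eq with h1 | h1
    · exact absurd h (R.left p q h0 x h1).asymm
    · rw [h1, R.eq] at h
      exact lt_irrefl _ h

/-- a pair with the same order at two abscissas has this order in between -/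
lemma lt_between {p q : Wire B.W B.ns} {x y z : ℝ} (hxy : x ≤ y) (hyz : y ≤ z)
    (hx : (R.F p).eval x < (R.F q).eval x) (hz : (R.F p).eval z < (R.F q).eval z) :
    (R.F p).eval y < (R.F q).eval y := by
  have hpq : p ≠ q := by
    rintro rfl
    exact lt_irrefl _ hx
  rcases B.h_lt_or_gt hpq B.ini with h0 | h0
  · rw [← R.lt_b_iff h0] at hz ⊢
    exact lt_of_le_of_lt hyz hz
  · rw [← R.b_lt_iff h0] at hx ⊢
    exact lt_of_lt_of_le hx hxy

/-- the crossing of `p`, `q` lies between abscissas with opposite orders -/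
lemma crossing_between {p q : Wire B.W B.ns} {x z : ℝ} (hxz : x < z)
    (hx : (R.F q).eval x < (R.F p).eval x) (hz : (R.F p).eval z < (R.F q).eval z) :
    B.h B.ini q < B.h B.ini p ∧ x < R.b p q ∧ R.b p q < z := by
  have hpq : p ≠ q := by
    rintro rfl
    exact lt_irrefl _ hx
  rcases B.h_lt_or_gt hpq B.ini with h0 | h0
  · exfalso
    rw [← R.b_lt_iff h0] at hx
    rw [← R.lt_b_iff h0] at hz
    linarith
  · exact ⟨h0, (R.lt_b_iff h0).2 hx, (R.b_lt_iff h0).2 hz⟩

/-- the polynomials do not agree away from the crossing -/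
lemma ne_of_ne {p q : Wire B.W B.ns} (hpq : p ≠ q) {x : ℝ} (hx : x ≠ R.b p q) :
    (R.F p).eval x ≠ (R.F q).eval x := by
  rcases B.h_lt_or_gt hpq B.ini with h0 | h0 <;> rcases lt_or_gt_of_ne hx with h | h
  · exact (R.left q p h0 x (by rw [R.symm]; exact h)).ne
  · exact (R.right q p h0 x (by rw [R.symm]; exact h)).ne'
  · exact (R.left p q h0 x h).ne'
  · exact (R.right p q h0 x h).ne

/-! ### key times -/

omit R in
lemma r_core_lt {p : Wire B.W B.ns} (hp : p.IsCore) (m : Fin B.ns) :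
    B.r p < B.r (.R m) ∧ B.r (.S m) < B.r p := by
  have hA := B.A_nonneg
  cases p with
  | inn w =>
    have := abs_le.1 (B.slope_le w)
    constructor <;> simp only [rk] <;> omega
  | L => constructor <;> simp only [rk] <;> omega
  | C => constructor <;> simp only [rk] <;> omega
  | S _ => exact absurd hp (by simp [Wire.IsCore])
  | R _ => exact absurd hp (by simp [Wire.IsCore])

omit R in
lemma r_S_lt_R (m m' : Fin B.ns) : B.r (.S m) < B.r (.R m') := by
  have hA := B.A_nonneg
  simp only [rk]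
  omega

omit R in
lemma core_ne {p : Wire B.W B.ns} (hp : p.IsCore) (m : Fin B.ns) : p ≠ .R m ∧ p ≠ .S m := by
  constructor <;> rintro rfl <;> exact absurd hp (by simp [Wire.IsCore])

omit R in
lemma Sw_R {p : Wire B.W B.ns} (hp : p.IsCore) (m : Fin B.ns) :
    ¬ B.Sw p (.R m) (B.key m 0) ∧ B.Sw p (.R m) (B.key m 1) := by
  have h1 := (r_core_lt hp m).1
  constructor
  · rw [B.Sw_iff h1]
    exact (B.key0 m p hp).1.asymm
  · rw [B.Sw_iff h1]
    exact B.key1 m p hp

omit R in
lemma Sw_S {p : Wire B.W B.ns} (hp : p.IsCore) (m : Fin B.ns) :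
    ¬ B.Sw p (.S m) (B.key m 2) ∧ B.Sw p (.S m) (B.key m 3) := by
  have h1 := (r_core_lt hp m).2
  constructor
  · rw [B.Sw_symm, B.Sw_iff h1]
    exact (B.key2 m p hp).asymm
  · rw [B.Sw_symm, B.Sw_iff h1]
    exact B.key3 m p hp

omit R in
lemma Sw_SR (m : Fin B.ns) :
    ¬ B.Sw (.R m) (.S m) (B.key m 1) ∧ B.Sw (.R m) (.S m) (B.key m 2) := by
  have h1 := r_S_lt_R (B := B) m m
  constructor
  · rw [B.Sw_symm, B.Sw_iff h1]
    exact (B.key1' m).asymm
  · rw [B.Sw_symm, B.Sw_iff h1]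
    exact B.key2' m

/-- the real key times -/
def tau (m : Fin B.ns) : ℝ := R.b (.R m) (.S m)

lemma b_R_lt_tau {p : Wire B.W B.ns} (hp : p.IsCore) (m : Fin B.ns) :
    R.b p (.R m) < R.tau m := by
  have h1 := R.order (.R m) p (.S m) (B.key m 1) (core_ne hp m).1.symm (by simp)
    (B.Sw_symm.1 (Sw_R hp m).2) (Sw_SR m).1
  rw [R.symm (.R m) p] at h1
  exact h1

lemma tau_lt_b_S {p : Wire B.W B.ns} (hp : p.IsCore) (m : Fin B.ns) :
    R.tau m < R.b p (.S m) := by
  have h1 := R.order (.S m) (.R m) p (B.key m 2) (by simp) (core_ne hp m).2.symm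
    (B.Sw_symm.1 (Sw_SR m).2) (fun h => (Sw_S hp m).1 (B.Sw_symm.1 h))
  rw [R.symm (.S m) p, R.symm (.S m) (.R m)] at h1
  exact h1

/-- switched by the key state: real crossing before the key time -/
lemma b_lt_tau {p q : Wire B.W B.ns} (hp : p.IsCore) (hpq : p ≠ q) {m : Fin B.ns}
    (h : B.Sw p q (B.key m 0)) : R.b p q < R.tau m :=
  (R.order p q (.R m) (B.key m 0) hpq (core_ne hp m).1 h (Sw_R hp m).1).trans (R.b_R_lt_tau hp m)

omit R in
/-- the status of a core pair does not change during the sync -/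
lemma Sw_key_iff {p q : Wire B.W B.ns} (hp : p.IsCore) (hq : q.IsCore) (m : Fin B.ns) (i : Fin 4) :
    B.Sw p q (B.key m i) ↔ B.Sw p q (B.key m 0) := by
  have key : ∀ p q : Wire B.W B.ns, p.IsCore → q.IsCore →
      (B.h (B.key m i) p < B.h (B.key m i) q ↔ B.h (B.key m 0) p < B.h (B.key m 0) q) := by
    intro p q hp hq
    constructor
    · intro h
      by_contra hcon
      have hpq : p ≠ q := by
        rintro rfl
        exact lt_irrefl _ h
      have h1 := (B.h_lt_or_gt hpq (B.key m 0)).resolve_left hcon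
      exact absurd h (B.key_core m i q p hq hp h1).asymm
    · exact B.key_core m i p q hp hq
  unfold Block.Sw
  rw [key p q hp hq, key q p hq hp]

/-- not switched by the key state: real crossing after the key time -/
lemma tau_lt_b {p q : Wire B.W B.ns} (hp : p.IsCore) (hq : q.IsCore) (hpq : p ≠ q) {m : Fin B.ns}
    (h : ¬ B.Sw p q (B.key m 0)) : R.tau m < R.b p q := by
  have h' : ¬ B.Sw p q (B.key m 3) := fun h3 => h ((Sw_key_iff hp hq m 3).1 h3)
  exact (R.tau_lt_b_S hp m).trans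
    (R.order p (.S m) q (B.key m 3) (core_ne hp m).2 hpq (Sw_S hp m).2 h')

lemma b_lt_tau_iff {p q : Wire B.W B.ns} (hp : p.IsCore) (hq : q.IsCore) (hpq : p ≠ q)
    {m : Fin B.ns} : R.b p q < R.tau m ↔ B.Sw p q (B.key m 0) := by
  constructor
  · intro h
    by_contra hcon
    exact absurd h (R.tau_lt_b hp hq hpq hcon).asymm
  · exact R.b_lt_tau hp hpq

lemma tau_lt_b_iff {p q : Wire B.W B.ns} (hp : p.IsCore) (hq : q.IsCore) (hpq : p ≠ q)
    {m : Fin B.ns} : R.tau m < R.b p q ↔ ¬ B.Sw p q (B.key m 0) := by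
  constructor
  · intro h hcon
    exact absurd h (R.b_lt_tau hp hpq hcon).asymm
  · exact R.tau_lt_b hp hq hpq

/-- at the key time `tau m` the core has the order of the key state -/
lemma tau_core {p q : Wire B.W B.ns} (hp : p.IsCore) (hq : q.IsCore) (m : Fin B.ns) :
    (R.F p).eval (R.tau m) < (R.F q).eval (R.tau m) ↔
      B.h (B.key m 0) p < B.h (B.key m 0) q := by
  by_cases hpq : p = q
  · subst hpq
    simp
  by_cases hsw : B.Sw p q (B.key m 0)
  · exact R.lt_iff_of_Sw hpq hsw (R.b_lt_tau hp hpq hsw)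
  · exact R.lt_iff_of_not_Sw hpq hsw (R.tau_lt_b hp hq hpq hsw)

/-- the key times increase -/
lemma tau_lt_tau {m m' : Fin B.ns} (h : m < m') : R.tau m < R.tau m' := by
  -- through the core wire `L`
  have hL : (Wire.L : Wire B.W B.ns).IsCore := trivial
  have h1 := R.tau_lt_b_S hL m
  -- on `L` : `S m` before `R m'`
  have h2 : R.b .L (.S m) < R.b .L (.R m') := by
    refine R.order .L (.S m) (.R m') (B.key m 3) (core_ne hL m).2 (core_ne hL m').1 (Sw_S hL m).2 ?_
    intro h3
    exact (Sw_R hL m').1 (B.Sw_mono (B.key_mono m m' h) h3)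
  have h3 := R.b_R_lt_tau hL m'
  exact h1.trans (h2.trans h3)

lemma tau_strictMono : StrictMono R.tau := fun _ _ h => R.tau_lt_tau h

lemma tau_le_tau {m m' : Fin B.ns} (h : m ≤ m') : R.tau m ≤ R.tau m' :=
  R.tau_strictMono.monotone h

/-- two core wires with the same order at two key states have this order on the real interval
between the two key times -/
lemma lt_on {p q : Wire B.W B.ns} (hp : p.IsCore) (hq : q.IsCore) {m m' : Fin B.ns}
    (h : B.h (B.key m 0) p < B.h (B.key m 0) q) (h' : B.h (B.key m' 0) p < B.h (B.key m' 0) q)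
    {x : ℝ} (hx : R.tau m ≤ x) (hx' : x ≤ R.tau m') : (R.F p).eval x < (R.F q).eval x :=
  R.lt_between hx hx' ((R.tau_core hp hq m).2 h) ((R.tau_core hp hq m').2 h')

end BReal

end Pool.Agent.W_be22fd_h16
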