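import Pool.Agent.W_MP_be22fd_co.Defs
import Pool.Agent.W_MP_be22fd_co.Interp
import Pool.Agent.W_MP_be22fd_co.Generic
import Pool.Agent.W_MP_be22fd_co.Heights
import Pool.Agent.W_MP_be22fd_co.Rigid

/-!
Piecewise linear curves through prescribed integer heights (any finite family, any heights).
-/

namespace Pool.Agent.W_be22fd_h16

open Pool.Agent.W_MP_be22fd_co

/-- the piecewise linear curves with integer heights `ht` and vertical shifts `s` -/
noncomputable def crv {κ : Type} (ht : κ → ℕ → ℤ) (K : ℕ) (s : κ → ℝ) (i : κ) : ℝ → ℝ :=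
  interp (fun k => (ht i k : ℝ) + s i) K

lemma crv_cross {κ : Type} {ht : κ → ℕ → ℤ} {K : ℕ} (s : κ → ℝ)
    (hs : ∀ i, s i ∈ Set.Ioo (0 : ℝ) 1) {i j : κ} {τ : ℕ} (h : Slot (ht i) (ht j) K τ) :
    ∃ t : ℝ, (τ : ℝ) < t ∧ t < (τ : ℝ) + 1 ∧ crv ht K s i t = crv ht K s j t ∧
      (∀ x, x < t → crv ht K s j x < crv ht K s i x) ∧
      (∀ x, t < x → crv ht K s i x < crv ht K s j x) := by
  obtain ⟨h1, h2, h3⟩ := h
  obtain ⟨hsi0, hsi1⟩ := hs i
  obtain ⟨hsj0, hsj1⟩ := hs j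
  obtain ⟨t, ht0, ht1, hte, htl, htr⟩ := interp_cross
    (fun k => ((ht i k : ℝ) + s i) - ((ht j k : ℝ) + s j)) K τ h1
    (fun k hk' => by
      have := h2 k hk'
      have h' : (ht j k : ℝ) + 1 ≤ (ht i k : ℝ) := by exact_mod_cast this
      show 0 < ((ht i k : ℝ) + s i) - ((ht j k : ℝ) + s j)
      linarith)
    (fun k hk' hk'' => by
      have := h3 k hk' hk''
      have h' : (ht i k : ℝ) + 1 ≤ (ht j k : ℝ) := by exact_mod_cast this
      show ((ht i k : ℝ) + s i) - ((ht j k : ℝ) + s j) < 0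
      linarith)
  rw [← interp_sub] at hte
  refine ⟨t, ht0, ht1, ?_, ?_, ?_⟩
  · simp only [crv]
    linarith
  · intro x hx
    have := htl x hx
    rw [← interp_sub] at this
    simp only [crv]
    linarith
  · intro x hx
    have := htr x hx
    rw [← interp_sub] at this
    simp only [crv]
    linarith

lemma crv_isArrangement {κ : Type} {ht : κ → ℕ → ℤ} {K : ℕ}
    (hS : ∀ i j, i ≠ j → (∃ τ, Slot (ht i) (ht j) K τ) ∨ (∃ τ, Slot (ht j) (ht i) K τ))
    (s : κ → ℝ) (hs : ∀ i, s i ∈ Set.Ioo (0 : ℝ) 1) : IsArrangement (crv ht K s) := by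
  refine ⟨fun i => continuous_interp _ _, fun i j hij => ?_⟩
  rcases hS i j hij with ⟨τ, h⟩ | ⟨τ, h⟩
  · obtain ⟨t, -, -, he, hl, hr⟩ := crv_cross s hs h
    exact ⟨t, he, Or.inr ⟨hl, hr⟩⟩
  · obtain ⟨t, -, -, he, hl, hr⟩ := crv_cross s hs h
    exact ⟨t, he.symm, Or.inl ⟨hl, hr⟩⟩

lemma exists_crv {κ : Type} [Fintype κ] [DecidableEq κ] {ht : κ → ℕ → ℤ} {K : ℕ}
    (hS : ∀ i j, i ≠ j → (∃ τ, Slot (ht i) (ht j) K τ) ∨ (∃ τ, Slot (ht j) (ht i) K τ)) :
    ∃ s : κ → ℝ, (∀ i, s i ∈ Set.Ioo (0 : ℝ) 1) ∧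
      IsArrangement (crv ht K s) ∧ IsSimple (crv ht K s) := by
  obtain ⟨s, hs, h⟩ := exists_generic
    (fun i : κ => interp (fun k => (ht i k : ℝ)) K) (by
    intro s hs i j hij
    obtain ⟨t, -, hcr⟩ := (crv_isArrangement hS s hs).cross i j hij
    refine ⟨t, fun y hy => ?_⟩
    have hy' : crv ht K s i y = crv ht K s j y := by
      simp only [crv, interp_add_const]
      exact hy
    by_contra hne
    rcases lt_or_gt_of_ne hne with hlt | hgt
    · rcases hcr with hcr | hcr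
      · exact absurd hy' (hcr.1 y hlt).ne
      · exact absurd hy' (hcr.1 y hlt).ne'
    · rcases hcr with hcr | hcr
      · exact absurd hy' (hcr.2 y hgt).ne'
      · exact absurd hy' (hcr.2 y hgt).ne)
  refine ⟨s, hs, crv_isArrangement hS s hs, ?_⟩
  intro i j k hij hjk hik x hx
  simp only [crv, interp_add_const] at hx
  exact h i j k hij hjk hik x hx

end Pool.Agent.W_be22fd_h16
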