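import Pool.Agent.W_be22fd_h16.Curves

/-!
From a finite sequence of orders in which every pair of wires switches at most once to real
polynomials with forced crossing orders.
-/

namespace Pool.Agent.W_be22fd_h16

open Pool.Agent.W_MP_be22fd_co

/-- A sequence of linear orders of the wires `ι` at the times `0, ..., T`, given by heights,
in which every pair of wires switches at most once. -/
structure OrdSeq (ι α : Type) [LinearOrder α] (T : ℕ) where
  H : ι → ℕ → α
  inj : ∀ i j k, k ≤ T → i ≠ j → H i k ≠ H j k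
  once : ∀ i j k l, k ≤ l → l ≤ T → H j 0 < H i 0 → H i k < H j k → H i l < H j l

namespace OrdSeq

variable {ι α : Type} [LinearOrder α] {T : ℕ}

/-- the pair `i`, `j` has switched by time `l` -/
def Sw (W : OrdSeq ι α T) (i j : ι) (l : ℕ) : Prop :=
  (W.H j 0 < W.H i 0 ∧ W.H i l < W.H j l) ∨ (W.H i 0 < W.H j 0 ∧ W.H j l < W.H i l)

lemma Sw_symm (W : OrdSeq ι α T) {i j : ι} {l : ℕ} : W.Sw i j l ↔ W.Sw j i l := by
  unfold Sw
  tauto

lemma Sw_iff (W : OrdSeq ι α T) {i j : ι} (h : W.H j 0 < W.H i 0) {l : ℕ} :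
    W.Sw i j l ↔ W.H i l < W.H j l := by
  unfold Sw
  constructor
  · rintro (h1 | h1)
    · exact h1.2
    · exact absurd h1.1 h.asymm
  · intro h1
    exact Or.inl ⟨h, h1⟩

lemma exists_slot (W : OrdSeq ι α T) {p q : ι} (h : W.H q 0 < W.H p 0) :
    ∃ τ ≤ T, (∀ k, k ≤ τ → W.H q k < W.H p k) ∧
      (∀ k, τ < k → k ≤ T → W.H p k < W.H q k) := by
  classical
  have hpq : p ≠ q := by
    rintro rfl
    exact lt_irrefl _ h
  by_cases hex : ∃ k, k ≤ T ∧ W.H p k < W.H q k
  · obtain ⟨hk0, hk1⟩ := Nat.find_spec hex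
    set k0 := Nat.find hex with hk
    have hpos : k0 ≠ 0 := by
      intro h0
      rw [h0] at hk1
      exact absurd hk1 h.asymm
    refine ⟨k0 - 1, by omega, ?_, ?_⟩
    · intro k hkk
      have := Nat.find_min hex (m := k) (by omega)
      push Not at this
      have h1 := this (by omega)
      exact lt_of_le_of_ne h1 (W.inj q p k (by omega) hpq.symm)
    · intro k hkk hkT
      exact W.once p q k0 k (by omega) hkT h hk1
  · push Not at hex
    refine ⟨T, le_rfl, ?_, ?_⟩
    · intro k hk
      exact lt_of_le_of_ne (hex k hk) (W.inj q p k hk hpq.symm)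
    · intro k hk hk'
      omega

variable [Fintype ι]

/-- the rank of wire `i` at time `k` -/
def rk (W : OrdSeq ι α T) (i : ι) (k : ℕ) : ℤ :=
  ((Finset.univ.filter (fun j => W.H j k < W.H i k)).card : ℤ)

lemma rk_lt (W : OrdSeq ι α T) {i j : ι} {k : ℕ} (h : W.H i k < W.H j k) :
    W.rk i k < W.rk j k := by
  unfold rk
  have : (Finset.univ.filter (fun l => W.H l k < W.H i k)) ⊂
      (Finset.univ.filter (fun l => W.H l k < W.H j k)) := by
    rw [Finset.ssubset_iff_of_subset]
    · exact ⟨i, by simpa using h, by simp⟩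
    · intro l hl
      simp only [Finset.mem_filter, Finset.mem_univ, true_and] at hl ⊢
      exact hl.trans h
  exact_mod_cast Finset.card_lt_card this

lemma rk_nonneg (W : OrdSeq ι α T) (i : ι) (k : ℕ) : 0 ≤ W.rk i k := by
  unfold rk
  positivity

lemma rk_lt_card (W : OrdSeq ι α T) (i : ι) (k : ℕ) : W.rk i k < (Fintype.card ι : ℤ) := by
  unfold rk
  have : (Finset.univ.filter (fun l => W.H l k < W.H i k)) ⊂ Finset.univ := by
    rw [Finset.ssubset_univ_iff]
    intro h
    have : i ∈ (Finset.univ.filter (fun l => W.H l k < W.H i k)) := by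
      rw [h]
      exact Finset.mem_univ _
    simp at this
  have := Finset.card_lt_card this
  rw [Finset.card_univ] at this
  exact_mod_cast this

/-- heights of the model: two copies, one above the other, and `e` extra curves; at time `T + 1`
everything is reversed. -/
def ht (W : OrdSeq ι α T) (e : ℕ) : (ι × Bool) ⊕ Fin e → ℕ → ℤ
  | Sum.inl (i, false), k =>
      if k ≤ T then W.rk i k + (Fintype.card ι : ℤ) else -(W.rk i 0 + (Fintype.card ι : ℤ))
  | Sum.inl (i, true), k =>
      if k ≤ T then W.rk i k - (Fintype.card ι : ℤ) else -(W.rk i 0 - (Fintype.card ι : ℤ))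
  | Sum.inr r, k =>
      if k ≤ T then -((Fintype.card ι : ℤ) + 1 + (r : ℕ)) else (Fintype.card ι : ℤ) + 1 + (r : ℕ)

lemma slot_copy (W : OrdSeq ι α T) (e : ℕ) (c : Bool) {p q : ι} (h : W.H q 0 < W.H p 0) :
    ∃ τ, Slot (W.ht e (Sum.inl (p, c))) (W.ht e (Sum.inl (q, c))) (T + 1) τ ∧
      ∀ l ≤ T, (W.Sw p q l → τ < l) ∧ (¬ W.Sw p q l → l ≤ τ) := by
  obtain ⟨τ, hτ, h1, h2⟩ := W.exists_slot h
  refine ⟨τ, ⟨by omega, ?_, ?_⟩, ?_⟩
  · intro k hk
    have := W.rk_lt (h1 k hk)
    cases c <;> simp only [ht, if_pos (show k ≤ T by omega)] <;> omega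
  · intro k hk hk'
    by_cases hkT : k ≤ T
    · have := W.rk_lt (h2 k hk hkT)
      cases c <;> simp only [ht, if_pos hkT] <;> omega
    · have := W.rk_lt h
      cases c <;> simp only [ht, if_neg hkT] <;> omega
  · intro l hl
    rw [W.Sw_iff h]
    constructor
    · intro hlt
      by_contra hcon
      push Not at hcon
      exact absurd hlt (h1 l hcon).asymm
    · intro hlt
      by_contra hcon
      push Not at hcon
      exact hlt (h2 l hcon hl)

lemma slot_blocks (W : OrdSeq ι α T) (e : ℕ) (p q : ι) :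
    Slot (W.ht e (Sum.inl (p, false))) (W.ht e (Sum.inl (q, true))) (T + 1) T := by
  refine ⟨by omega, ?_, ?_⟩
  · intro k hk
    have h1 := W.rk_nonneg p k
    have h2 := W.rk_lt_card q k
    simp only [ht, if_pos hk]
    omega
  · intro k hk hk'
    have h1 := W.rk_nonneg p 0
    have h2 := W.rk_lt_card q 0
    have h3 := W.rk_nonneg q 0
    have h4 := W.rk_lt_card p 0
    simp only [ht, if_neg (show ¬ k ≤ T by omega)]
    omega

lemma slot_extra (W : OrdSeq ι α T) (e : ℕ) (p : ι) (c : Bool) (r : Fin e) :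
    Slot (W.ht e (Sum.inl (p, c))) (W.ht e (Sum.inr r)) (T + 1) T := by
  refine ⟨by omega, ?_, ?_⟩
  · intro k hk
    have h1 := W.rk_nonneg p k
    have h2 := W.rk_lt_card p k
    cases c <;> simp only [ht, if_pos hk] <;> omega
  · intro k hk hk'
    have h1 := W.rk_nonneg p 0
    have h2 := W.rk_lt_card p 0
    cases c <;> simp only [ht, if_neg (show ¬ k ≤ T by omega)] <;> omega

lemma slot_extra_extra (W : OrdSeq ι α T) (e : ℕ) {r r' : Fin e} (h : r < r') :
    Slot (W.ht e (Sum.inr r)) (W.ht e (Sum.inr r')) (T + 1) T := by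
  have h' : (r : ℕ) < (r' : ℕ) := h
  refine ⟨by omega, ?_, ?_⟩
  · intro k hk
    simp only [ht, if_pos hk]
    omega
  · intro k hk hk'
    simp only [ht, if_neg (show ¬ k ≤ T by omega)]
    omega

lemma slot_all (W : OrdSeq ι α T) (e : ℕ) (i j : (ι × Bool) ⊕ Fin e) (hij : i ≠ j) :
    (∃ τ, Slot (W.ht e i) (W.ht e j) (T + 1) τ) ∨ (∃ τ, Slot (W.ht e j) (W.ht e i) (T + 1) τ) := by
  rcases i with ⟨p, c⟩ | r <;> rcases j with ⟨q, c'⟩ | r'
  · by_cases hc : c = c'
    · subst hc
      have hpq : p ≠ q := by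
        rintro rfl
        exact hij rfl
      rcases lt_or_gt_of_ne (W.inj p q 0 (Nat.zero_le _) hpq) with h | h
      · obtain ⟨τ, hτ, -⟩ := W.slot_copy e c h
        exact Or.inr ⟨τ, hτ⟩
      · obtain ⟨τ, hτ, -⟩ := W.slot_copy e c h
        exact Or.inl ⟨τ, hτ⟩
    · cases c <;> cases c'
      · exact absurd rfl hc
      · exact Or.inl ⟨T, W.slot_blocks e p q⟩
      · exact Or.inr ⟨T, W.slot_blocks e q p⟩
      · exact absurd rfl hc
  · exact Or.inl ⟨T, W.slot_extra e p c r'⟩
  · exact Or.inr ⟨T, W.slot_extra e q c' r⟩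
  · have hne : r ≠ r' := fun h => hij (by rw [h])
    rcases lt_or_gt_of_ne hne with h | h
    · exact Or.inl ⟨T, W.slot_extra_extra e h⟩
    · exact Or.inr ⟨T, W.slot_extra_extra e h⟩

end OrdSeq

/-- three wires, the middle one in the middle: all pairs have the same orientation -/
lemma orient' {κ : Type} {g : κ → ℝ → ℝ} {b : κ → κ → ℝ} {up above : κ → κ → Prop}
    (hc : CrossData g b up) (hne : ∀ p q, above p q → p ≠ q)
    (htr : ∀ p q r, above p q → above q r → above p r)
    (hT : ∀ p q r, above p q → above q r →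
      (b p q < b p r ∧ b p r < b q r) ∨ (b q r < b p r ∧ b p r < b p q))
    {p q r : κ} (hpq : above p q) (hqr : above q r) :
    (up p q ↔ up p r) ∧ (up q r ↔ up p r) := by
  have n1 := hne _ _ hpq
  have n2 := hne _ _ hqr
  have n3 := hne _ _ (htr _ _ _ hpq hqr)
  have e1 := hc.eq p q n1
  have e2 := hc.eq q r n2
  rcases hT p q r hpq hqr with ⟨h1, h2⟩ | ⟨h1, h2⟩
  · constructor
    · rw [hc.up_iff_right n1 (h1.trans h2), hc.up_iff_right n3 h2, e2]
    · rw [hc.up_iff_left n2 (h1.trans h2), hc.up_iff_left n3 h1, e1]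
  · constructor
    · rw [hc.up_iff_left n1 (h1.trans h2), hc.up_iff_left n3 h1, e2]
    · rw [hc.up_iff_right n2 (h1.trans h2), hc.up_iff_right n3 h2, e1]

/-- all pairs of wires have the same orientation -/
lemma exists_sign {κ : Type} [Finite κ] {g : κ → ℝ → ℝ} {b : κ → κ → ℝ}
    {up above : κ → κ → Prop}
    (hc : CrossData g b up) (hne : ∀ p q, above p q → p ≠ q)
    (htot : ∀ p q, p ≠ q → above p q ∨ above q p)
    (htr : ∀ p q r, above p q → above q r → above p r)
    (hT : ∀ p q r, above p q → above q r →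
      (b p q < b p r ∧ b p r < b q r) ∨ (b q r < b p r ∧ b p r < b p q)) :
    ∃ σ : ℝ, (σ = 1 ∨ σ = -1) ∧ ∀ p q, above p q →
      (∀ x, x < b p q → 0 < σ * (g p x - g q x)) ∧ (∀ x, b p q < x → σ * (g p x - g q x) < 0) := by
  by_cases hu : ∀ p q, above p q → up p q
  · refine ⟨1, Or.inl rfl, fun p q hpq => ⟨fun x hx => ?_, fun x hx => ?_⟩⟩
    · have := hc.left p q (hu p q hpq) x hx
      linarith
    · have := hc.right p q (hu p q hpq) x hx
      linarith
  · push Not at hu
    obtain ⟨p₀, q₀, h0, hnu⟩ := hu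
    -- any two pairs have the same orientation
    have hsame : ∀ p q, above p q → (up p q ↔ up p₀ q₀) := by
      -- same upper wire
      have up1 : ∀ p q r, above p q → above p r → (up p q ↔ up p r) := by
        intro p q r hpq hpr
        by_cases hqr : q = r
        · rw [hqr]
        rcases htot q r hqr with h | h
        · exact (orient' hc hne htr hT hpq h).1
        · exact (orient' hc hne htr hT hpr h).1.symm
      have dn1 : ∀ p q r, above q p → above r p → (up q p ↔ up r p) := by
        intro p q r hqp hrp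
        by_cases hqr : q = r
        · rw [hqr]
        rcases htot q r hqr with h | h
        · exact (orient' hc hne htr hT h hrp).2.symm
        · exact (orient' hc hne htr hT h hqp).2
      intro p q hpq
      by_cases hpp : p = p₀
      · subst hpp
        exact up1 _ _ _ hpq h0
      rcases htot p p₀ hpp with h | h
      · have h' : above p q₀ := htr _ _ _ h h0
        exact (up1 _ _ _ hpq h').trans (dn1 _ _ _ h' h0)
      · have h' : above p₀ q := htr _ _ _ h hpq
        exact (dn1 _ _ _ hpq h').trans (up1 _ _ _ h' h0)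
    refine ⟨-1, Or.inr rfl, fun p q hpq => ?_⟩
    have hqp : up q p := (hc.tot p q (hne _ _ hpq)).resolve_left
      (fun h => hnu ((hsame p q hpq).1 h))
    refine ⟨fun x hx => ?_, fun x hx => ?_⟩
    · have := hc.left q p hqp x (by rw [hc.symm q p]; exact hx)
      linarith
    · have := hc.right q p hqp x (by rw [hc.symm q p]; exact hx)
      linarith

/-- What a realisation by polynomials of degree at most `d` of the order sequence `W` gives:
real polynomials `F i` and the abscissas `b i j` of the crossings. -/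
structure Realisation {ι α : Type} [LinearOrder α] {T : ℕ} (W : OrdSeq ι α T) (d : ℕ) where
  F : ι → Polynomial ℝ
  b : ι → ι → ℝ
  deg : ∀ i, (F i).natDegree ≤ d
  symm : ∀ i j, b i j = b j i
  /-- `i` is above `j` before their crossing -/
  left : ∀ i j, W.H j 0 < W.H i 0 → ∀ x, x < b i j → (F j).eval x < (F i).eval x
  eq : ∀ i j, (F i).eval (b i j) = (F j).eval (b i j)
  right : ∀ i j, W.H j 0 < W.H i 0 → ∀ x, b i j < x → (F i).eval x < (F j).eval x
  /-- order of the crossings along every wire -/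
  order : ∀ i j k l, i ≠ j → i ≠ k → l ≤ T → W.Sw i j l → ¬ W.Sw i k l → b i j < b i k

theorem realise {ι α : Type} [Fintype ι] [LinearOrder α] {T : ℕ} (W : OrdSeq ι α T)
    {n d : ℕ} (hn : 2 * Fintype.card ι ≤ n)
    (h : ∀ f : Fin n → ℝ → ℝ, IsArrangement f → IsSimple f → Stretchable d f) :
    Nonempty (Realisation W d) := by
  classical
  obtain ⟨e, rfl⟩ : ∃ e, n = 2 * Fintype.card ι + e := ⟨n - 2 * Fintype.card ι, by omega⟩
  obtain ⟨s, hs, harr, hsimp⟩ := exists_crv (W.slot_all e)
  have eqv : (ι × Bool) ⊕ Fin e ≃ Fin (2 * Fintype.card ι + e) := Fintype.equivOfCardEq (by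
    rw [Fintype.card_sum, Fintype.card_prod, Fintype.card_bool, Fintype.card_fin,
      Fintype.card_fin]
    ring)
  obtain ⟨P, hPd, hParr, hh, σ, hhσ⟩ := h (fun j => crv (W.ht e) (T + 1) s (eqv.symm j))
    ⟨fun i => harr.cont _, fun i j hij => harr.cross _ _ (fun hc => hij (eqv.symm.injective hc))⟩
    (fun i j k hij hjk hik => hsimp _ _ _ (fun hc => hij (eqv.symm.injective hc))
      (fun hc => hjk (eqv.symm.injective hc)) (fun hc => hik (eqv.symm.injective hc)))
  let ρ : (ι × Bool) ⊕ Fin e → Fin (2 * Fintype.card ι + e) := fun i => σ (eqv i)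
  have hρ : Function.Injective ρ := fun i j hij => eqv.injective (σ.injective hij)
  have hgarr : IsArrangement (fun (i : (ι × Bool) ⊕ Fin e) x => (P (ρ i)).eval x) :=
    ⟨fun i => hParr.cont _, fun i j hij => hParr.cross _ _ (fun hc => hij (hρ hc))⟩
  have hcurve : ∀ i, hh '' curve (crv (W.ht e) (T + 1) s i) =
      curve (fun x => (P (ρ i)).eval x) := by
    intro i
    have := hhσ (eqv i)
    simp only [Equiv.symm_apply_apply] at this
    exact this
  obtain ⟨a, upf, hf⟩ := exists_crossData harr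
  obtain ⟨b, upg, hg⟩ := exists_crossData hgarr
  have hsm : ∀ i, SM a b i ∨ SA a b i := mono_or_anti hf hg harr.cont hh hcurve
  -- facts about the model
  have hslot : ∀ i j τ, i ≠ j → Slot (W.ht e i) (W.ht e j) (T + 1) τ →
      upf i j ∧ (τ : ℝ) < a i j ∧ a i j < (τ : ℝ) + 1 := by
    intro i j τ hne hτ
    obtain ⟨t, h0, h1, he, hl, hr⟩ := crv_cross s hs hτ
    have ht : t = a i j := hf.unique hne he
    subst ht
    refine ⟨?_, h0, h1⟩
    rw [hf.up_iff_left hne (x := a i j - 1) (by linarith)]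
    exact hl _ (by linarith)
  have hblocks := two_blocks hf hg hsimp hsm (fun i => ∃ p, i = Sum.inl (p, false))
    (fun i => ∃ p, i = Sum.inl (p, true)) (by
      rintro i j ⟨p, rfl⟩ ⟨q, rfl⟩
      exact (hslot _ _ _ (by simp) (W.slot_blocks e p q)).1)
  -- restriction to one copy
  obtain ⟨c, hor⟩ : ∃ c : Bool, (∀ p, SM a b (Sum.inl (p, c))) ∨ (∀ p, SA a b (Sum.inl (p, c))) := by
    rcases hblocks with hb | hb
    · exact ⟨false, hb.imp (fun h p => h _ ⟨p, rfl⟩) (fun h p => h _ ⟨p, rfl⟩)⟩
    · exact ⟨true, hb.imp (fun h p => h _ ⟨p, rfl⟩) (fun h p => h _ ⟨p, rfl⟩)⟩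
  have hinj : ∀ p q : ι, p ≠ q → (Sum.inl (p, c) : (ι × Bool) ⊕ Fin e) ≠ Sum.inl (q, c) := by
    intro p q hpq
    simp only [ne_eq, Sum.inl.injEq, Prod.mk.injEq, and_true]
    exact hpq
  let A : ι → ι → ℝ := fun p q => a (Sum.inl (p, c)) (Sum.inl (q, c))
  let B : ι → ι → ℝ := fun p q => b (Sum.inl (p, c)) (Sum.inl (q, c))
  let Q : ι → Polynomial ℝ := fun p => P (ρ (Sum.inl (p, c)))
  have hgQ : CrossData (fun p x => (Q p).eval x) B
      (fun p q => upg (Sum.inl (p, c)) (Sum.inl (q, c))) :=
    ⟨fun p q => hg.symm _ _, fun p q hpq => hg.tot _ _ (hinj p q hpq),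
      fun p q hpq h' => hg.irr _ _ hpq (by rw [h']), fun p q hpq => hg.eq _ _ (hinj p q hpq),
      fun p q hpq => hg.left _ _ hpq, fun p q hpq => hg.right _ _ hpq⟩
  have habove : ∀ p q, W.H q 0 < W.H p 0 → p ≠ q := by
    rintro p q hpq rfl
    exact lt_irrefl _ hpq
  -- order of the crossings in the model
  have hAsw : ∀ p q l, p ≠ q → l ≤ T → (W.Sw p q l → A p q < l) ∧ (¬ W.Sw p q l → (l : ℝ) < A p q) := by
    have key : ∀ p q l, W.H q 0 < W.H p 0 → l ≤ T →
        (W.Sw p q l → A p q < l) ∧ (¬ W.Sw p q l → (l : ℝ) < A p q) := by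
      intro p q l hpq hl
      obtain ⟨τ, hτ, hτ'⟩ := W.slot_copy e c hpq
      obtain ⟨-, h1, h2⟩ := hslot _ _ τ (hinj p q (habove p q hpq)) hτ
      obtain ⟨h3, h4⟩ := hτ' l hl
      constructor
      · intro hsw
        have h5 : ((τ : ℝ) + 1) ≤ (l : ℝ) := by exact_mod_cast h3 hsw
        exact lt_of_lt_of_le h2 h5
      · intro hsw
        have h5 : (l : ℝ) ≤ (τ : ℝ) := by exact_mod_cast h4 hsw
        exact lt_of_le_of_lt h5 h1
    intro p q l hpq hl
    rcases lt_or_gt_of_ne (W.inj p q 0 (Nat.zero_le _) hpq) with h' | h'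
    · have := key q p l h' hl
      rw [W.Sw_symm, show A q p = A p q from hf.symm _ _] at this
      exact this
    · exact key p q l h' hl
  have hAord : ∀ i j k l, i ≠ j → i ≠ k → l ≤ T → W.Sw i j l → ¬ W.Sw i k l → A i j < A i k := by
    intro i j k l hij hik hl h1 h2
    exact ((hAsw i j l hij hl).1 h1).trans ((hAsw i k l hik hl).2 h2)
  have hAtri : ∀ p q r, W.H q 0 < W.H p 0 → W.H r 0 < W.H q 0 →
      (A p q < A p r ∧ A p r < A q r) ∨ (A q r < A p r ∧ A p r < A p q) := by
    intro p q r hpq hqr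
    have up1 : ∀ p q, W.H q 0 < W.H p 0 → upf (Sum.inl (p, c)) (Sum.inl (q, c)) := by
      intro p q hpq
      obtain ⟨τ, hτ, -⟩ := W.slot_copy e c hpq
      exact (hslot _ _ τ (hinj p q (habove p q hpq)) hτ).1
    exact hf.tri hsimp (up1 _ _ hpq) (up1 _ _ hqr) (up1 _ _ (hqr.trans hpq))
  -- orientation of the abscissa
  obtain ⟨δ, hδ, B', up', hcd, hord, htri⟩ : ∃ δ : ℝ, (δ = 1 ∨ δ = -1) ∧
      ∃ (B' : ι → ι → ℝ) (up' : ι → ι → Prop),
      CrossData (fun p x => (Q p).eval (δ * x)) B' up' ∧
      (∀ i j k l, i ≠ j → i ≠ k → l ≤ T → W.Sw i j l → ¬ W.Sw i k l → B' i j < B' i k) ∧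
      (∀ p q r, W.H q 0 < W.H p 0 → W.H r 0 < W.H q 0 →
        (B' p q < B' p r ∧ B' p r < B' q r) ∨ (B' q r < B' p r ∧ B' p r < B' p q)) := by
    rcases hor with hor | hor
    · refine ⟨1, Or.inl rfl, B, _, by simpa only [one_mul] using hgQ, ?_, ?_⟩
      · intro i j k l hij hik hl h1 h2
        exact hor i _ _ (hinj j i hij.symm) (hinj k i hik.symm) (hAord i j k l hij hik hl h1 h2)
      · intro p q r hpq hqr
        have n1 := habove _ _ hpq
        have n2 := habove _ _ hqr
        have n3 := habove _ _ (hqr.trans hpq)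
        rcases hAtri p q r hpq hqr with ⟨h1, h2⟩ | ⟨h1, h2⟩
        · left
          have k1 := hor p _ _ (hinj q p n1.symm) (hinj r p n3.symm) h1
          have k2 := hor r _ _ (hinj p r n3) (hinj q r n2)
            (by rw [hf.symm _ (Sum.inl (p, c)), hf.symm _ (Sum.inl (q, c))]; exact h2)
          rw [hg.symm _ (Sum.inl (p, c)), hg.symm _ (Sum.inl (q, c))] at k2
          exact ⟨k1, k2⟩
        · right
          have k1 := hor p _ _ (hinj r p n3.symm) (hinj q p n1.symm) h2
          have k2 := hor r _ _ (hinj q r n2) (hinj p r n3)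
            (by rw [hf.symm _ (Sum.inl (p, c)), hf.symm _ (Sum.inl (q, c))]; exact h1)
          rw [hg.symm _ (Sum.inl (p, c)), hg.symm _ (Sum.inl (q, c))] at k2
          exact ⟨k2, k1⟩
    · refine ⟨-1, Or.inr rfl, fun p q => - B p q,
        fun p q => upg (Sum.inl (q, c)) (Sum.inl (p, c)), ?_, ?_, ?_⟩
      · refine ⟨?_, ?_, ?_, ?_, ?_, ?_⟩
        · intro i j
          rw [hgQ.symm i j]
        · intro i j hij
          exact (hgQ.tot i j hij).symm
        · intro i j h
          exact (hgQ.irr j i h).symm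
        · intro i j hij
          have := hgQ.eq i j hij
          simpa using this
        · intro i j h x hx
          have hlt : B j i < -1 * x := by
            rw [hgQ.symm j i]
            linarith
          exact hgQ.right j i h _ hlt
        · intro i j h x hx
          have hlt : -1 * x < B j i := by
            rw [hgQ.symm j i]
            linarith
          exact hgQ.left j i h _ hlt
      · intro i j k l hij hik hl h1 h2
        have := hor i _ _ (hinj j i hij.symm) (hinj k i hik.symm) (hAord i j k l hij hik hl h1 h2)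
        show - b _ _ < - b _ _
        linarith
      · intro p q r hpq hqr
        have n1 := habove _ _ hpq
        have n2 := habove _ _ hqr
        have n3 := habove _ _ (hqr.trans hpq)
        rcases hAtri p q r hpq hqr with ⟨h1, h2⟩ | ⟨h1, h2⟩
        · left
          have k1 := hor p _ _ (hinj q p n1.symm) (hinj r p n3.symm) h1
          have k2 := hor r _ _ (hinj p r n3) (hinj q r n2)
            (by rw [hf.symm _ (Sum.inl (p, c)), hf.symm _ (Sum.inl (q, c))]; exact h2)
          rw [hg.symm _ (Sum.inl (p, c)), hg.symm _ (Sum.inl (q, c))] at k2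
          constructor
          · show - b _ _ < - b _ _
            linarith
          · show - b _ _ < - b _ _
            linarith
        · right
          have k1 := hor p _ _ (hinj r p n3.symm) (hinj q p n1.symm) h2
          have k2 := hor r _ _ (hinj q r n2) (hinj p r n3)
            (by rw [hf.symm _ (Sum.inl (p, c)), hf.symm _ (Sum.inl (q, c))]; exact h1)
          rw [hg.symm _ (Sum.inl (p, c)), hg.symm _ (Sum.inl (q, c))] at k2
          constructor
          · show - b _ _ < - b _ _
            linarith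
          · show - b _ _ < - b _ _
            linarith
  obtain ⟨τ, hτ, hsign⟩ := exists_sign (above := fun p q => W.H q 0 < W.H p 0) hcd habove
    (fun p q hpq => (lt_or_gt_of_ne (W.inj p q 0 (Nat.zero_le _) hpq)).symm)
    (fun p q r h1 h2 => h2.trans h1) htri
  let F : ι → Polynomial ℝ := fun p =>
    Polynomial.C τ * (Q p).comp (Polynomial.C δ * Polynomial.X)
  have hFeval : ∀ p x, (F p).eval x = τ * (Q p).eval (δ * x) := by
    intro p x
    simp only [F, Polynomial.eval_mul, Polynomial.eval_C, Polynomial.eval_comp, Polynomial.eval_X]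
  refine ⟨⟨F, fun p q => if p = q then 0 else B' p q, ?_, ?_, ?_, ?_, ?_, ?_⟩⟩
  · intro i
    refine (Polynomial.natDegree_C_mul_le _ _).trans ?_
    refine (Polynomial.natDegree_comp_le).trans ?_
    have h1 : (Polynomial.C δ * Polynomial.X : Polynomial ℝ).natDegree ≤ 1 :=
      (Polynomial.natDegree_C_mul_le _ _).trans Polynomial.natDegree_X_le
    calc (Q i).natDegree * (Polynomial.C δ * Polynomial.X : Polynomial ℝ).natDegree
        ≤ (Q i).natDegree * 1 := Nat.mul_le_mul_left _ h1
      _ ≤ d := by rw [mul_one]; exact hPd _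
  · intro i j
    by_cases hij : i = j
    · simp [hij]
    · rw [if_neg hij, if_neg (Ne.symm hij), hcd.symm i j]
  · intro i j hij x hx
    rw [if_neg (habove i j hij)] at hx
    have := (hsign i j hij).1 x hx
    rw [hFeval, hFeval]
    linarith
  · intro i j
    by_cases hij : i = j
    · rw [hij]
    · rw [if_neg hij, hFeval, hFeval]
      rw [show (Q i).eval (δ * B' i j) = (Q j).eval (δ * B' i j) from hcd.eq i j hij]
  · intro i j hij x hx
    rw [if_neg (habove i j hij)] at hx
    have := (hsign i j hij).2 x hx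
    rw [hFeval, hFeval]
    linarith
  · intro i j k l hij hik hl h1 h2
    rw [if_neg hij, if_neg hik]
    exact hord i j k l hij hik hl h1 h2

end Pool.Agent.W_be22fd_h16
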