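import Pool.Agent.W_be22fd_h16.Realise

/-!
Synchronisation: what a pair of wires `s`, `s'` sweeping through the core in opposite directions
says about the real order of the core at the abscissa `b s s'`.
-/

namespace Pool.Agent.W_be22fd_h16

open Pool.Agent.W_MP_be22fd_co

namespace OrdSeq

variable {ι α : Type} [LinearOrder α] {T : ℕ} (W : OrdSeq ι α T)

lemma Sw_mono {i j : ι} {k l : ℕ} (hkl : k ≤ l) (hl : l ≤ T) (h : W.Sw i j k) : W.Sw i j l := by
  rcases h with ⟨h1, h2⟩ | ⟨h1, h2⟩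
  · exact Or.inl ⟨h1, W.once i j k l hkl hl h1 h2⟩
  · exact Or.inr ⟨h1, W.once j i k l hkl hl h1 h2⟩

lemma not_Sw_zero (i j : ι) : ¬ W.Sw i j 0 := by
  rintro (⟨h1, h2⟩ | ⟨h1, h2⟩)
  · exact absurd h1 h2.asymm
  · exact absurd h1 h2.asymm

/-- not switched: same order as at time `0` -/
lemma not_Sw_iff {i j : ι} {l : ℕ} (hl : l ≤ T) (hij : i ≠ j) :
    ¬ W.Sw i j l ↔ (W.H i 0 < W.H j 0 ↔ W.H i l < W.H j l) := by
  have h0 := W.inj i j 0 (Nat.zero_le _) hij
  have hl' := W.inj i j l hl hij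
  unfold Sw
  rcases lt_or_gt_of_ne h0 with h | h <;> rcases lt_or_gt_of_ne hl' with h' | h'
  · simp [h, h', not_lt_of_gt h, not_lt_of_gt h']
  · simp [h, h', not_lt_of_gt h, not_lt_of_gt h']
  · simp [h, h', not_lt_of_gt h, not_lt_of_gt h']
  · simp [h, h', not_lt_of_gt h, not_lt_of_gt h']

lemma Sw_iff_ne {i j : ι} {l : ℕ} (hl : l ≤ T) (hij : i ≠ j) :
    W.Sw i j l ↔ (W.H i 0 < W.H j 0 ↔ W.H j l < W.H i l) := by
  have h0 := W.inj i j 0 (Nat.zero_le _) hij
  have hl' := W.inj i j l hl hij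
  unfold Sw
  rcases lt_or_gt_of_ne h0 with h | h <;> rcases lt_or_gt_of_ne hl' with h' | h'
  · simp [h, h', not_lt_of_gt h, not_lt_of_gt h']
  · simp [h, h', not_lt_of_gt h, not_lt_of_gt h']
  · simp [h, h', not_lt_of_gt h, not_lt_of_gt h']
  · simp [h, h', not_lt_of_gt h, not_lt_of_gt h']

end OrdSeq

namespace Realisation

variable {ι α : Type} [LinearOrder α] {T d : ℕ} {W : OrdSeq ι α T} (R : Realisation W d)

include R

/-- a pair that has switched by time `l`, at an abscissa after its crossing, has the order of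
time `l` -/
lemma lt_iff_of_Sw {i j : ι} {l : ℕ} (h : W.Sw i j l) {x : ℝ}
    (hx : R.b i j < x) : (R.F i).eval x < (R.F j).eval x ↔ W.H i l < W.H j l := by
  rcases h with ⟨h1, h2⟩ | ⟨h1, h2⟩
  · exact ⟨fun _ => h2, fun _ => R.right i j h1 x hx⟩
  · have h3 := R.right j i h1 x (by rw [R.symm]; exact hx)
    exact ⟨fun h4 => absurd h4 h3.asymm, fun h4 => absurd h4 h2.asymm⟩

/-- a pair that has not switched by time `l`, at an abscissa before its crossing, has the order
of time `l` -/
lemma lt_iff_of_not_Sw {i j : ι} {l : ℕ} (hl : l ≤ T) (hij : i ≠ j) (h : ¬ W.Sw i j l) {x : ℝ}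
    (hx : x < R.b i j) : (R.F i).eval x < (R.F j).eval x ↔ W.H i l < W.H j l := by
  rw [W.not_Sw_iff hl hij] at h
  rw [← h]
  rcases lt_or_gt_of_ne (W.inj i j 0 (Nat.zero_le _) hij) with h0 | h0
  · exact ⟨fun _ => h0, fun _ => R.left j i h0 x (by rw [R.symm]; exact hx)⟩
  · have h3 := R.left i j h0 x hx
    exact ⟨fun h4 => absurd h4 h3.asymm, fun h4 => absurd h4 h0.asymm⟩

/-- `{g,h}` before `{g,s}` on `g`, `{s,g}` before `{s,s'}` on `s` -/
lemma before {g h s s' : ι} {l l' : ℕ} (hgh : g ≠ h) (hgs : g ≠ s) (hss : s ≠ s')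
    (hl : l ≤ T) (hl' : l' ≤ T) (h1 : W.Sw g h l) (h2 : ¬ W.Sw g s l) (h3 : W.Sw g s l')
    (h4 : ¬ W.Sw s s' l') : R.b g h < R.b s s' := by
  have k1 := R.order g h s l hgh hgs hl h1 h2
  have k2 := R.order s g s' l' hgs.symm hss hl' (W.Sw_symm.1 h3) h4
  rw [R.symm s g] at k2
  exact k1.trans k2

/-- `{s,s'}` before `{s',g}` on `s'`, `{g,s'}` before `{g,h}` on `g` -/
lemma after {g h s s' : ι} {l l' : ℕ} (hgh : g ≠ h) (hgs : g ≠ s') (hss : s ≠ s')
    (hl : l ≤ T) (hl' : l' ≤ T) (h1 : W.Sw s s' l') (h2 : ¬ W.Sw g s' l') (h3 : W.Sw g s' l)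
    (h4 : ¬ W.Sw g h l) : R.b s s' < R.b g h := by
  have k1 := R.order s' s g l' hss.symm hgs.symm hl' (W.Sw_symm.1 h1) (fun h => h2 (W.Sw_symm.1 h))
  have k2 := R.order g s' h l hgs hgh hl h3 h4
  rw [R.symm s' s, R.symm s' g] at k1
  exact k1.trans k2

/-- The synchronising pair `s`, `s'`: at the abscissa `b s s'` the pair `g`, `h` of core wires has
exactly the order of time `l`.  Times: `s` has not met `g` at `l`, has met it at `l₁`, when it has
not met `s'`; `s` has met `s'` at `l₂`, when `s'` has not met `g`; `s'` has met `g` at `l₃`; the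
pair `g`, `h` has the same status at `l` and `l₃`. -/
lemma sync {g h s s' : ι} {l l₁ l₂ l₃ : ℕ} (hgh : g ≠ h) (hgs : g ≠ s) (hgs' : g ≠ s')
    (hss : s ≠ s') (hl : l ≤ T) (hl₁ : l₁ ≤ T) (hl₂ : l₂ ≤ T) (hl₃ : l₃ ≤ T)
    (h1 : ¬ W.Sw g s l) (h2 : W.Sw g s l₁) (h3 : ¬ W.Sw s s' l₁) (h4 : W.Sw s s' l₂)
    (h5 : ¬ W.Sw g s' l₂) (h6 : W.Sw g s' l₃) (h7 : W.Sw g h l₃ → W.Sw g h l) :
    (R.F g).eval (R.b s s') < (R.F h).eval (R.b s s') ↔ W.H g l < W.H h l := by
  by_cases hsw : W.Sw g h l
  · exact R.lt_iff_of_Sw hsw (R.before hgh hgs hss hl hl₁ hsw h1 h2 h3)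
  · exact R.lt_iff_of_not_Sw hl hgh hsw
      (R.after hgh hgs' hss hl₃ hl₂ h4 h5 h6 (fun h => hsw (h7 h)))

/-- a pair with the same order at two abscissas has this order in between -/
lemma lt_between {i j : ι} (hij : i ≠ j) {x y z : ℝ} (hxy : x ≤ y) (hyz : y ≤ z)
    (hx : (R.F i).eval x < (R.F j).eval x) (hz : (R.F i).eval z < (R.F j).eval z) :
    (R.F i).eval y < (R.F j).eval y := by
  rcases lt_or_gt_of_ne (W.inj i j 0 (Nat.zero_le _) hij) with h0 | h0
  · -- `i` below `j` before the crossing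
    have h1 : z < R.b j i := by
      by_contra hcon
      push Not at hcon
      rcases hcon.lt_or_eq with h | h
      · exact absurd hz (R.right j i h0 z h).asymm
      · rw [← h, R.eq] at hz
        exact lt_irrefl _ hz
    exact R.left j i h0 y (lt_of_le_of_lt hyz h1)
  · have h1 : R.b i j < x := by
      by_contra hcon
      push Not at hcon
      rcases hcon.lt_or_eq with h | h
      · exact absurd hx (R.left i j h0 x h).asymm
      · rw [h, R.eq] at hx
        exact lt_irrefl _ hx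
    exact R.right i j h0 y (lt_of_lt_of_le h1 hxy)

/-- the crossing of `i`, `j` lies between abscissas with opposite orders -/
lemma crossing_between {i j : ι} (hij : i ≠ j) {x z : ℝ} (hxz : x < z)
    (hx : (R.F j).eval x < (R.F i).eval x) (hz : (R.F i).eval z < (R.F j).eval z) :
    x < R.b i j ∧ R.b i j < z := by
  rcases lt_or_gt_of_ne (W.inj i j 0 (Nat.zero_le _) hij) with h0 | h0
  · -- impossible: before the crossing `i` is below `j`
    exfalso
    have h1 : R.b j i < x := by
      by_contra hcon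
      push Not at hcon
      rcases hcon.lt_or_eq with h | h
      · exact absurd hx (R.left j i h0 x h).asymm
      · rw [h, R.eq] at hx
        exact lt_irrefl _ hx
    exact absurd hz (R.right j i h0 z (h1.trans hxz)).asymm
  · constructor
    · by_contra hcon
      push Not at hcon
      rcases hcon.lt_or_eq with h | h
      · exact absurd hx (R.right i j h0 x h).asymm
      · rw [← h, R.eq] at hx
        exact lt_irrefl _ hx
    · by_contra hcon
      push Not at hcon
      rcases hcon.lt_or_eq with h | h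
      · exact absurd hz (R.left i j h0 z h).asymm
      · rw [h, R.eq] at hz
        exact lt_irrefl _ hz

/-- different wires have different polynomials -/
lemma F_injective : Function.Injective R.F := by
  intro i j hij
  by_contra hne
  rcases lt_or_gt_of_ne (W.inj i j 0 (Nat.zero_le _) hne) with h0 | h0
  · have := R.left j i h0 (R.b j i - 1) (by linarith)
    rw [hij] at this
    exact lt_irrefl _ this
  · have := R.left i j h0 (R.b i j - 1) (by linarith)
    rw [hij] at this
    exact lt_irrefl _ this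

end Realisation

end Pool.Agent.W_be22fd_h16
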